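import Mathlib

set_option autoImplicit false

open Filter Topology Module

namespace Pool.Agent.Results.MP_b56e9d_an.IndexZero

universe u

section Banach

variable {X : Type u} [NormedAddCommGroup X] [NormedSpace ℂ X]

/-- A compact operator has no infinite linearly independent family of eigenvectors with
eigenvalues bounded away from zero. -/
theorem riesz_eig {F : X →L[ℂ] X} (hF : IsCompactOperator F) (x : ℕ → X) (μ : ℕ → ℂ)
    (hx : LinearIndependent ℂ x) (hμ : ∀ n, F (x n) = μ n • x n) {δ : ℝ} (hδ : 0 < δ)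
    (hb : ∀ n, δ ≤ ‖μ n‖) : False := by
  classical
  let Y : ℕ → Submodule ℂ X := fun n => Submodule.span ℂ (x '' (Set.Iio n))
  have hYfin : ∀ n, FiniteDimensional ℂ (Y n) := fun n =>
    FiniteDimensional.span_of_finite ℂ ((Set.finite_Iio n).image x)
  have hYmono : ∀ {m n : ℕ}, m ≤ n → Y m ≤ Y n := fun h =>
    Submodule.span_mono (Set.image_mono (Set.Iio_subset_Iio h))
  have hFY : ∀ n, ∀ y ∈ Y n, F y ∈ Y n := by
    intro n y hy
    have : Y n ≤ (Y n).comap F.toLinearMap := by
      refine Submodule.span_le.2 ?_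
      rintro _ ⟨k, hk, rfl⟩
      show F (x k) ∈ Y n
      rw [hμ]
      exact Submodule.smul_mem _ _ (Submodule.subset_span ⟨k, hk, rfl⟩)
    exact this hy
  have hxn : ∀ n, x n ∉ Y n := by
    intro n h
    exact hx.notMem_span_image (s := Set.Iio n) (x := n) (by simp) h
  have key : ∀ n, ∃ z ∈ Y (n + 1), ‖z‖ = 1 ∧ ∀ y ∈ Y n, (1 / 2 : ℝ) ≤ ‖z - y‖ := by
    intro n
    have hmem : x n ∈ Y (n + 1) := Submodule.subset_span ⟨n, by simp, rfl⟩
    let W : Submodule ℂ (Y (n + 1)) := (Y n).comap (Y (n + 1)).subtype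
    have hWc : IsClosed (W : Set (Y (n + 1))) := W.closed_of_finiteDimensional
    obtain ⟨z, -, hz1, hz2⟩ := riesz_lemma_of_lt_one (𝕜 := ℂ) (F := W) hWc
      ⟨⟨x n, hmem⟩, fun h => hxn n h⟩ (r := 1 / 2) (by norm_num)
    refine ⟨z, z.2, hz1, fun y hy => ?_⟩
    have := hz2 ⟨y, hYmono (Nat.le_succ n) hy⟩ hy
    simpa using this
  choose z hzY hz1 hz2 using key
  -- decomposition
  have hdec : ∀ n, F (z n) - μ n • z n ∈ Y n := by
    intro n
    have h1 : Y (n + 1) = Submodule.span ℂ (insert (x n) (x '' Set.Iio n)) := by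
      show Submodule.span ℂ (x '' Set.Iio (n + 1)) = _
      congr 1
      ext w
      constructor
      · rintro ⟨k, hk, rfl⟩
        have hk' : k < n + 1 := hk
        rcases Nat.lt_succ_iff_lt_or_eq.1 hk' with h | h
        · exact Or.inr ⟨k, h, rfl⟩
        · subst h; exact Or.inl rfl
      · rintro (h | ⟨k, hk, rfl⟩)
        · exact ⟨n, by simp, h.symm⟩
        · exact ⟨k, lt_trans (show k < n from hk) (Nat.lt_succ_self n), rfl⟩
    have h2 := hzY n
    rw [h1, Submodule.mem_span_insert] at h2
    obtain ⟨a, y, hy, hz⟩ := h2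
    rw [hz, map_add, map_smul, hμ]
    have : a • μ n • x n + F y - μ n • (a • x n + y) = F y - μ n • y := by
      rw [smul_add, smul_comm a (μ n) (x n)]; abel
    rw [this]
    exact Submodule.sub_mem _ (hFY n y hy) (Submodule.smul_mem _ _ hy)
  have hsep : ∀ m n, m < n → δ / 2 ≤ ‖F (z n) - F (z m)‖ := by
    intro m n hmn
    have hm : F (z m) ∈ Y n := hYmono hmn (hFY (m + 1) _ (hzY m))
    have hne : μ n ≠ 0 := by
      intro h; have := hb n; rw [h, norm_zero] at this; linarith
    set w : X := (μ n)⁻¹ • (F (z m) - (F (z n) - μ n • z n)) with hw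
    have hwY : w ∈ Y n := Submodule.smul_mem _ _ (Submodule.sub_mem _ hm (hdec n))
    have e : F (z n) - F (z m) = μ n • (z n - w) := by
      rw [smul_sub, hw, smul_inv_smul₀ hne]; abel
    rw [e, norm_smul]
    have := hz2 n w hwY
    have h3 := hb n
    nlinarith [norm_nonneg (z n - w)]
  obtain ⟨K, hK, hK'⟩ := hF.image_closedBall_subset_compact 1
  obtain ⟨y, -, ψ, hψ, hψy⟩ := hK.tendsto_subseq (x := fun n => F (z n))
    (fun n ↦ hK' ⟨z n, by simp [hz1], rfl⟩)
  have hc := hψy.cauchySeq
  rw [Metric.cauchySeq_iff'] at hc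
  obtain ⟨N, hN⟩ := hc (δ / 2) (by positivity)
  have h1 := hN (N + 1) (by omega)
  rw [dist_eq_norm] at h1
  exact absurd (hsep _ _ (hψ (Nat.lt_succ_self N))) (not_le.2 h1)

/-- If `V A = 1 + K'` with `K'` compact, `F` is compact and commutes with `A` and
`N(A) ∩ N(F) = 0`, then `A + F / (n + 1)` is injective for all but finitely many `n`. -/
theorem generic_injective {A F V K' : X →L[ℂ] X} [CompleteSpace X] (hF : IsCompactOperator F)
    (hK' : IsCompactOperator K') (hVA : ∀ x, V (A x) = x + K' x)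
    (hcomm : ∀ x, A (F x) = F (A x)) (hker : ∀ x, A x = 0 → F x = 0 → x = 0) :
    {n : ℕ | ∃ x, x ≠ 0 ∧ A x = -((1 / ((n : ℂ) + 1)) • F x)}.Finite := by
  classical
  by_contra hinf
  set bad : Set ℕ := {n : ℕ | ∃ x, x ≠ 0 ∧ A x = -((1 / ((n : ℂ) + 1)) • F x)} with hbad
  -- unit joint eigenvectors
  have hev : ∀ n ∈ bad, ∃ x : X, ∃ μ : ℂ, ‖x‖ = 1 ∧ F x = μ • x ∧
      A x = -((1 / ((n : ℂ) + 1)) • (μ • x)) := by
    rintro n ⟨x₀, hx₀, hAx₀⟩
    set t : ℂ := 1 / ((n : ℂ) + 1) with ht
    let E : Submodule ℂ X := LinearMap.ker (A + t • F).toLinearMap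
    have hE : ∀ x, x ∈ E ↔ A x = -(t • F x) := by
      intro x
      rw [LinearMap.mem_ker]
      show A x + t • F x = 0 ↔ _
      rw [add_eq_zero_iff_eq_neg]
    have hEc : IsClosed (E : Set X) := (A + t • F).isClosed_ker
    have hL : IsCompactOperator (-(K' + t • V.comp F) : X →L[ℂ] X) := by
      have h1 : IsCompactOperator (t • V.comp F : X →L[ℂ] X) := (hF.clm_comp V).smul t
      exact (hK'.add h1).neg
    have hid : ∀ x : E, (-(K' + t • V.comp F) : X →L[ℂ] X) (x : X) = x := by
      intro x
      have h1 := (hE x).1 x.2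
      have h2 := hVA x
      rw [h1, map_neg, map_smul] at h2
      show -(K' (x : X) + t • V (F (x : X))) = x
      have : (x : X) = -(t • V (F (x : X))) - K' (x : X) := by rw [h2]; abel
      rw [neg_add]
      nth_rw 3 [this]
      abel
    have hfd : FiniteDimensional ℂ E := by
      apply FiniteDimensional.of_isCompactOperator_id (𝕜 := ℂ)
      have h3 := (hL.comp_clm E.subtypeL).codRestrict (V := E)
        (fun x => by
          show (-(K' + t • V.comp F) : X →L[ℂ] X) (x : X) ∈ E
          rw [hid x]; exact x.2) hEc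
      have h4 : (id : E → E) = Set.codRestrict (⇑(-(K' + t • V.comp F) : X →L[ℂ] X) ∘ ⇑E.subtypeL) E
          (fun x => by
            show (-(K' + t • V.comp F) : X →L[ℂ] X) (x : X) ∈ E
            rw [hid x]; exact x.2) := funext fun x => Subtype.ext (hid x).symm
      rw [h4]
      exact h3
    have hnt : Nontrivial E := ⟨⟨⟨x₀, (hE x₀).2 hAx₀⟩, 0, fun h => hx₀ (congrArg Subtype.val h)⟩⟩
    have hFE : ∀ x ∈ E, F.toLinearMap x ∈ E := by
      intro x hx
      rw [hE] at hx ⊢
      show A (F x) = -(t • F (F x))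
      rw [hcomm, hx, map_neg, map_smul]
    obtain ⟨μ, hμ⟩ := Module.End.exists_eigenvalue (F.toLinearMap.restrict hFE)
    obtain ⟨v, hv⟩ := hμ.exists_hasEigenvector
    have hv1 : F (v : X) = μ • (v : X) := congrArg Subtype.val hv.apply_eq_smul
    have hv0 : (v : X) ≠ 0 := fun h => hv.2 (Subtype.ext h)
    refine ⟨((‖(v : X)‖⁻¹ : ℝ) : ℂ) • (v : X), μ, ?_, ?_, ?_⟩
    · rw [norm_smul, Complex.norm_real, norm_inv, norm_norm]
      exact inv_mul_cancel₀ (norm_ne_zero_iff.2 hv0)
    · rw [map_smul, hv1, smul_comm]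
    · rw [map_smul, (hE _).1 v.2, hv1, smul_neg, smul_comm _ t, smul_comm _ μ]
  choose! x μ hx1 hFx hAx using hev
  have hinf' : bad.Infinite := hinf
  let e : ℕ → ℕ := fun k => Nat.nth (· ∈ bad) k
  have he : ∀ k, e k ∈ bad := fun k => Nat.nth_mem_of_infinite hinf' k
  have hemono : StrictMono e := Nat.nth_strictMono hinf'
  have hμ0 : ∀ n ∈ bad, μ n ≠ 0 := by
    intro n hn h0
    have h1 := hFx n hn
    have h2 := hAx n hn
    rw [h0, zero_smul] at h1 h2
    have h3 := hker (x n) (by simpa using h2) h1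
    have h4 := hx1 n hn
    rw [h3, norm_zero] at h4
    norm_num at h4
  have hμb : ∀ n ∈ bad, ‖μ n‖ ≤ ‖F‖ := by
    intro n hn
    have h1 := F.le_opNorm (x n)
    rw [hFx n hn, norm_smul, hx1 n hn, mul_one, mul_one] at h1
    exact h1
  let lam : ℕ → ℂ := fun k => -((1 / ((e k : ℂ) + 1)) * μ (e k))
  have hlam : ∀ k, A (x (e k)) = lam k • x (e k) := by
    intro k
    rw [hAx _ (he k)]
    show _ = (-((1 / ((e k : ℂ) + 1)) * μ (e k))) • x (e k)
    rw [neg_smul, mul_smul]
  have hlam0 : ∀ k, lam k ≠ 0 := by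
    intro k
    have h1 : ((e k : ℂ) + 1) ≠ 0 := by exact_mod_cast Nat.succ_ne_zero (e k)
    exact neg_ne_zero.2 (mul_ne_zero (one_div_ne_zero h1) (hμ0 _ (he k)))
  have hlamt : Tendsto lam atTop (𝓝 0) := by
    rw [tendsto_zero_iff_norm_tendsto_zero]
    have h1 : Tendsto (fun k => (1 / ((e k : ℝ) + 1)) * ‖F‖) atTop (𝓝 (0 * ‖F‖)) :=
      ((tendsto_one_div_add_atTop_nhds_zero_nat).comp hemono.tendsto_atTop).mul_const _
    rw [zero_mul] at h1
    refine squeeze_zero (fun _ => norm_nonneg _) (fun k => ?_) h1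
    show ‖-((1 / ((e k : ℂ) + 1)) * μ (e k))‖ ≤ _
    rw [norm_neg, norm_mul]
    have h2 : ‖(1 / ((e k : ℂ) + 1))‖ = 1 / ((e k : ℝ) + 1) := by
      rw [norm_div, norm_one]
      congr 1
      have : ((e k : ℂ) + 1) = (((e k : ℝ) + 1 : ℝ) : ℂ) := by push_cast; rfl
      rw [this, Complex.norm_real, Real.norm_of_nonneg (by positivity)]
    rw [h2]
    exact mul_le_mul_of_nonneg_left (hμb _ (he k)) (by positivity)
  -- convergent subsequence
  obtain ⟨K, hK, hKs⟩ := hK'.image_closedBall_subset_compact 1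
  obtain ⟨y, -, φ, hφ, hφy⟩ := hK.tendsto_subseq (x := fun k => K' (x (e k)))
    (fun k ↦ hKs ⟨x (e k), by simp [hx1 _ (he k)], rfl⟩)
  have hxe : ∀ k, x (e k) = lam k • V (x (e k)) - K' (x (e k)) := by
    intro k
    have h1 := hVA (x (e k))
    rw [hlam, map_smul] at h1
    rw [h1]; abel
  have hVt : Tendsto (fun k => lam (φ k) • V (x (e (φ k)))) atTop (𝓝 0) := by
    rw [tendsto_zero_iff_norm_tendsto_zero]
    have h1 : Tendsto (fun k => ‖lam (φ k)‖ * ‖V‖) atTop (𝓝 (‖(0 : ℂ)‖ * ‖V‖)) :=
      ((hlamt.comp hφ.tendsto_atTop).norm).mul_const _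
    rw [norm_zero, zero_mul] at h1
    refine squeeze_zero (fun _ => norm_nonneg _) (fun k => ?_) h1
    rw [norm_smul]
    refine mul_le_mul_of_nonneg_left ?_ (norm_nonneg _)
    have := V.le_opNorm (x (e (φ k)))
    rwa [hx1 _ (he _), mul_one] at this
  have hxt : Tendsto (fun k => x (e (φ k))) atTop (𝓝 (-y)) := by
    have h1 := hVt.sub hφy
    rw [zero_sub] at h1
    refine h1.congr fun k => ?_
    exact (hxe (φ k)).symm
  have hnorm : ‖(-y : X)‖ = 1 := by
    refine tendsto_nhds_unique hxt.norm ?_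
    simp only [hx1 _ (he _)]
    exact tendsto_const_nhds
  have hAy : A (-y) = 0 := by
    refine tendsto_nhds_unique ((A.continuous.tendsto _).comp hxt) ?_
    have h1 : Tendsto (fun k => lam (φ k) • x (e (φ k))) atTop (𝓝 ((0 : ℂ) • (-y))) :=
      (hlamt.comp hφ.tendsto_atTop).smul hxt
    rw [zero_smul] at h1
    refine h1.congr fun k => ?_
    exact (hlam (φ k)).symm
  have hFy : F (-y) ≠ 0 := by
    intro h
    have := hker _ hAy h
    rw [this, norm_zero] at hnorm
    norm_num at hnorm
  have hFt : Tendsto (fun k => ‖μ (e (φ k))‖) atTop (𝓝 ‖F (-y)‖) := by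
    have h1 := ((F.continuous.tendsto _).comp hxt).norm
    refine h1.congr fun k => ?_
    show ‖F (x (e (φ k)))‖ = _
    rw [hFx _ (he _), norm_smul, hx1 _ (he _), mul_one]
  set δ : ℝ := ‖F (-y)‖ / 2 with hδ
  have hδ0 : 0 < δ := by have := norm_pos_iff.2 hFy; positivity
  have hev2 : ∀ᶠ k in atTop, δ < ‖μ (e (φ k))‖ :=
    hFt.eventually (lt_mem_nhds (by have := norm_pos_iff.2 hFy; linarith))
  obtain ⟨N, hN⟩ := eventually_atTop.1 hev2
  -- infinitely many distinct eigenvalues of `A`
  let S : Set ℂ := Set.range (fun k => lam (φ (k + N)))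
  have hSinf : S.Infinite := by
    intro hfin
    have hcl := hfin.isClosed
    have ht : Tendsto (fun k => lam (φ (k + N))) atTop (𝓝 0) :=
      (hlamt.comp hφ.tendsto_atTop).comp (tendsto_add_atTop_nat N)
    have h0 : (0 : ℂ) ∈ S := hcl.mem_of_tendsto ht (Eventually.of_forall fun k => ⟨k, rfl⟩)
    obtain ⟨k, hk⟩ := h0
    exact hlam0 _ hk
  let emb := hSinf.natEmbedding
  have hidx : ∀ j, ∃ k, lam (φ (k + N)) = (emb j : ℂ) := fun j => (emb j).2
  choose k hk using hidx
  have hli : LinearIndependent ℂ (fun j => x (e (φ (k j + N)))) := by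
    refine Module.End.eigenvectors_linearIndependent' A.toLinearMap
      (fun j => lam (φ (k j + N))) ?_ _ ?_
    · intro i j hij
      have : (emb i : ℂ) = emb j := by rw [← hk i, ← hk j]; exact hij
      exact emb.injective (Subtype.ext this)
    · intro j
      rw [Module.End.hasEigenvector_iff, Module.End.mem_eigenspace_iff]
      refine ⟨hlam _, ?_⟩
      intro h
      have := hx1 _ (he (φ (k j + N)))
      rw [h, norm_zero] at this
      norm_num at this
  exact riesz_eig hF _ (fun j => μ (e (φ (k j + N)))) hli (fun j => hFx _ (he _)) hδ0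
    (fun j => (hN _ (by omega)).le)

end Banach

section Banach2
variable {X : Type u} [NormedAddCommGroup X] [NormedSpace ℂ X]

/-- An injective operator that is left invertible modulo the compact operators is bounded below,
hence has closed range. -/
theorem isClosed_range_of_inj {G V K' : X →L[ℂ] X} [CompleteSpace X]
    (hK' : IsCompactOperator K') (hVG : ∀ x, V (G x) = x + K' x) (hinj : ∀ x, G x = 0 → x = 0) :
    IsClosed (Set.range G) := by
  have key : ∃ c : ℝ, 0 < c ∧ ∀ x, c * ‖x‖ ≤ ‖G x‖ := by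
    by_contra hcon
    push Not at hcon
    have h1 : ∀ n : ℕ, ∃ u : X, ‖u‖ = 1 ∧ ‖G u‖ ≤ 1 / ((n : ℝ) + 1) := by
      intro n
      obtain ⟨x, hx⟩ := hcon (1 / ((n : ℝ) + 1)) (by positivity)
      have hx0 : 0 < ‖x‖ := by
        rcases (norm_nonneg x).eq_or_lt with h | h
        · rw [← h, mul_zero] at hx
          exact absurd hx (not_lt.2 (norm_nonneg _))
        · exact h
      refine ⟨((‖x‖⁻¹ : ℝ) : ℂ) • x, ?_, ?_⟩
      · rw [norm_smul, Complex.norm_real, norm_inv, norm_norm]
        exact inv_mul_cancel₀ hx0.ne'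
      · rw [map_smul, norm_smul, Complex.norm_real, norm_inv, norm_norm]
        rw [inv_mul_le_iff₀ hx0, mul_comm]
        exact hx.le
    choose u hu1 hu2 using h1
    obtain ⟨K, hK, hKs⟩ := hK'.image_closedBall_subset_compact 1
    obtain ⟨y, -, φ, hφ, hφy⟩ := hK.tendsto_subseq (x := fun k => K' (u k))
      (fun k ↦ hKs ⟨u k, by simp [hu1 k], rfl⟩)
    have hGt : Tendsto (fun k => G (u (φ k))) atTop (𝓝 0) := by
      rw [tendsto_zero_iff_norm_tendsto_zero]
      refine squeeze_zero (fun _ => norm_nonneg _) (fun k => hu2 (φ k)) ?_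
      exact (tendsto_one_div_add_atTop_nhds_zero_nat (𝕜 := ℝ)).comp hφ.tendsto_atTop
    have hVt : Tendsto (fun k => V (G (u (φ k)))) atTop (𝓝 0) := by
      have := (V.continuous.tendsto 0).comp hGt
      rwa [map_zero] at this
    have hut : Tendsto (fun k => u (φ k)) atTop (𝓝 (-y)) := by
      have h1 := hVt.sub hφy
      rw [zero_sub] at h1
      refine h1.congr fun k => ?_
      show V (G (u (φ k))) - K' (u (φ k)) = _
      rw [hVG]; abel
    have hnorm : ‖(-y : X)‖ = 1 := by
      refine tendsto_nhds_unique hut.norm ?_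
      simp only [hu1]
      exact tendsto_const_nhds
    have hG0 : G (-y) = 0 := tendsto_nhds_unique ((G.continuous.tendsto _).comp hut) hGt
    rw [hinj _ hG0, norm_zero] at hnorm
    norm_num at hnorm
  obtain ⟨c, hc, hcx⟩ := key
  have hanti : AntilipschitzWith (Real.toNNReal c⁻¹) G := by
    refine AddMonoidHomClass.antilipschitz_of_bound G fun x => ?_
    rw [Real.coe_toNNReal _ (by positivity), inv_mul_eq_div, le_div_iff₀ hc, mul_comm]
    exact hcx x
  exact hanti.isClosed_range G.uniformContinuous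

/-- Fredholm alternative for `G + L` with `G` bijective and `L` compact. -/
theorem bijective_of_injective {G L : X →L[ℂ] X} [CompleteSpace X]
    (hG : Function.Bijective G) (hL : IsCompactOperator L)
    (hinj : ∀ x, (G + L) x = 0 → x = 0) : Function.Bijective (G + L) := by
  obtain ⟨u, hu⟩ := (ContinuousLinearMap.isUnit_iff_bijective (f := G)).2 hG
  set W : X →L[ℂ] X := ↑u⁻¹ with hW
  have hWG : ∀ x, G (W x) = x := by
    intro x
    have : (↑u * ↑u⁻¹ : X →L[ℂ] X) x = x := by rw [Units.mul_inv]; rfl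
    rw [← hu]; exact this
  have hC : IsCompactOperator (-(W.comp L) : X →L[ℂ] X) := (hL.clm_comp W).neg
  have hfac : ∀ x, (G + L) x = G (x - (-(W.comp L) : X →L[ℂ] X) x) := by
    intro x
    rw [map_sub]
    show G x + L x = G x - G (-(W (L x)))
    rw [map_neg, hWG]; abel
  rcases hC.hasEigenvalue_or_mem_resolventSet (μ := (1 : ℂ)) one_ne_zero with h | h
  · obtain ⟨v, hv⟩ := h.exists_hasEigenvector
    exfalso
    refine hv.2 (hinj v ?_)
    rw [hfac]
    have := hv.apply_eq_smul
    rw [one_smul] at this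
    have h2 : (-(W.comp L) : X →L[ℂ] X) v = v := this
    rw [h2, sub_self, map_zero]
  · rw [spectrum.mem_resolventSet_iff, ContinuousLinearMap.isUnit_iff_bijective] at h
    have h3 : (⇑(G + L) : X → X) = G ∘ ⇑(algebraMap ℂ (X →L[ℂ] X) 1 - -(W.comp L)) := by
      funext x
      rw [hfac]
      simp
    rw [h3]
    exact hG.comp h

end Banach2

section Hilbert

variable {H : Type u} [NormedAddCommGroup H] [InnerProductSpace ℂ H] [CompleteSpace H]

open ContinuousLinearMap

/-- Schauder's theorem in a Hilbert space: the adjoint of a compact operator is compact. -/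
theorem compact_adjoint {F : H →L[ℂ] H} (hF : IsCompactOperator F) :
    IsCompactOperator (adjoint F) := by
  have hG : IsCompactOperator (F.comp (adjoint F)) := hF.comp_clm _
  have h0 : IsCompactOperator ((adjoint F : H →L[ℂ] H) : H →ₗ[ℂ] H) := by
    rw [isCompactOperator_iff_isCompact_closure_image_closedBall
      ((adjoint F : H →L[ℂ] H) : H →ₗ[ℂ] H) (zero_lt_one)]
    have htb : TotallyBounded ((F.comp (adjoint F)) '' Metric.closedBall 0 1) :=
      ((hG.isCompact_closure_image_closedBall (f := ((F.comp (adjoint F)) : H →ₗ[ℂ] H)) 1).totallyBounded).subset subset_closure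
    refine TotallyBounded.isCompact_of_isClosed (TotallyBounded.closure ?_) isClosed_closure
    refine Metric.totallyBounded_of_finite_discretization fun ε hε => ?_
    obtain ⟨t, ht, hcov⟩ := Metric.totallyBounded_iff.1 htb (ε ^ 2 / 8) (by positivity)
    have hch : ∀ y : (((adjoint F : H →L[ℂ] H) : H →ₗ[ℂ] H) '' Metric.closedBall 0 1), ∃ x : H,
        ∃ c : t, ‖x‖ ≤ 1 ∧ adjoint F x = (y : H) ∧ dist (F (adjoint F x)) c < ε ^ 2 / 8 := by
      rintro ⟨y, x, hx, rfl⟩
      have h1 : (F.comp (adjoint F)) x ∈ ⋃ y ∈ t, Metric.ball y (ε ^ 2 / 8) :=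
        hcov ⟨x, hx, rfl⟩
      simp only [Set.mem_iUnion] at h1
      obtain ⟨c, hc, h2⟩ := h1
      exact ⟨x, ⟨c, hc⟩, by simpa using hx, rfl, h2⟩
    choose x c hx hxy hxc using hch
    refine ⟨t, ht.fintype, c, fun a b hab => ?_⟩
    have h1 : dist (F (adjoint F (x a))) (F (adjoint F (x b))) < ε ^ 2 / 4 := by
      have h2 := hxc a
      have h3 := hxc b
      rw [← hab] at h3
      calc _ ≤ dist (F (adjoint F (x a))) (c a) + dist (F (adjoint F (x b))) (c a) :=
            dist_triangle_right _ _ _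
        _ < _ := by linarith
    rw [← hxy a, ← hxy b, dist_eq_norm]
    rw [dist_eq_norm, ← map_sub, ← map_sub] at h1
    rw [← map_sub]
    have h4 : ‖adjoint F (x a - x b)‖ ^ 2 ≤ ‖F (adjoint F (x a - x b))‖ * ‖x a - x b‖ := by
      rw [← inner_self_eq_norm_sq (𝕜 := ℂ), adjoint_inner_right]
      exact (Complex.re_le_norm _).trans (norm_inner_le_norm _ _)
    have h5 : ‖x a - x b‖ ≤ 2 := (norm_sub_le _ _).trans (by linarith [hx a, hx b])
    have h6 : ‖adjoint F (x a - x b)‖ ^ 2 < ε ^ 2 := by
      nlinarith [norm_nonneg (F (adjoint F (x a - x b))), norm_nonneg (x a - x b)]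
    exact lt_of_pow_lt_pow_left₀ 2 hε.le h6
  exact h0

/-- An operator that is left invertible modulo the compact operators, injective, with injective
adjoint, is bijective. -/
theorem bijective_of_adjoint {G V K' : H →L[ℂ] H} (hK' : IsCompactOperator K')
    (hVG : ∀ x, V (G x) = x + K' x) (hinj : ∀ x, G x = 0 → x = 0)
    (hadj : ∀ x, adjoint G x = 0 → x = 0) : Function.Bijective G := by
  have hcl := isClosed_range_of_inj hK' hVG hinj
  refine ⟨(injective_iff_map_eq_zero G).2 hinj, ?_⟩
  have h1 : G.rangeᗮ = ⊥ := by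
    rw [G.orthogonal_range, Submodule.eq_bot_iff]
    intro x hx
    exact hadj x hx
  have hcl' : IsClosed (G.range : Set H) := by
    exact hcl
  have : CompleteSpace G.range := hcl'.completeSpace_coe
  have h2 : G.range = ⊤ := Submodule.orthogonal_eq_bot_iff.1 h1
  intro y
  have : y ∈ G.range := by rw [h2]; trivial
  exact this

theorem adjoint_bijective {G : H →L[ℂ] H} (hG : Function.Bijective G) :
    Function.Bijective (adjoint G) := by
  rw [← ContinuousLinearMap.isUnit_iff_bijective] at hG ⊢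
  rw [← star_eq_adjoint]
  exact hG.star

/-- If `G` is bijective, `L` compact and `G + L` surjective, then `G + L` is injective. -/
theorem injective_of_surjective {G L : H →L[ℂ] H} (hG : Function.Bijective G)
    (hL : IsCompactOperator L) (hsurj : Function.Surjective (G + L)) :
    Function.Injective (G + L) := by
  have h1 : Function.Bijective (adjoint G + adjoint L) := by
    refine bijective_of_injective (adjoint_bijective hG) (compact_adjoint hL) fun x hx => ?_
    obtain ⟨y, hy⟩ := hsurj x
    have h2 : adjoint (G + L) x = 0 := by rw [map_add]; exact hx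
    have h3 : inner ℂ x x = 0 := by
      nth_rw 2 [← hy]
      rw [← adjoint_inner_left, h2, inner_zero_left]
    exact inner_self_eq_zero.1 h3
  have h2 : Function.Bijective (adjoint (G + L)) := by rw [map_add]; exact h1
  have h3 := adjoint_bijective h2
  rw [adjoint_adjoint] at h3
  exact h3.1

end Hilbert

section Main

variable {H : Type u} [NormedAddCommGroup H] [InnerProductSpace ℂ H] [CompleteSpace H]

open ContinuousLinearMap

/-- A Fredholm operator: closed range, finite-dimensional kernel and cokernel. -/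
structure FredholmOp (T : H →L[ℂ] H) : Prop where
  closed_range : IsClosed (T.range : Set H)
  finite_ker : FiniteDimensional ℂ T.ker
  finite_coker : FiniteDimensional ℂ (H ⧸ T.range)

/-- A commuting pair of bounded operators whose Koszul complex is exact. -/
structure TaylorInvertible (S₁ S₂ : H →L[ℂ] H) : Prop where
  comm : S₁.comp S₂ = S₂.comp S₁
  inj : ∀ x, S₁ x = 0 → S₂ x = 0 → x = 0
  mid : ∀ x y, S₁ y = S₂ x → ∃ z, x = S₁ z ∧ y = S₂ z
  surj : ∀ h, ∃ x y, -S₂ x + S₁ y = h

/-- The question: there are compact `K₁, K₂` such that the pair `(T + K₁, T + K₂)` commutes and is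
Taylor invertible. -/
def HasInvertibleCompactPerturbation (T : H →L[ℂ] H) : Prop :=
  ∃ K₁ K₂ : H →L[ℂ] H, IsCompactOperator K₁ ∧ IsCompactOperator K₂ ∧
    TaylorInvertible (T + K₁) (T + K₂)

theorem compact_of_finite_range {F G : Type u} [NormedAddCommGroup F] [InnerProductSpace ℂ F]
    [NormedAddCommGroup G] [InnerProductSpace ℂ G]
    (U : Submodule ℂ G) [FiniteDimensional ℂ U] (S : F →L[ℂ] U) :
    IsCompactOperator (U.subtypeL.comp S : F →L[ℂ] G) := by
  have h1 : IsCompactOperator (id : U → U) := isCompactOperator_id_iff_finiteDimensional.2 ‹_›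
  exact (h1.comp_clm S).clm_comp U.subtypeL

/-- A Fredholm operator is invertible modulo the compact operators. -/
theorem FredholmOp.exists_quasi_inverse {T : H →L[ℂ] H} (hT : FredholmOp T) :
    ∃ V K' K'' : H →L[ℂ] H, IsCompactOperator K' ∧ IsCompactOperator K'' ∧
      (∀ x, V (T x) = x + K' x) ∧ (∀ x, T (V x) = x + K'' x) := by
  have := hT.finite_ker
  have := hT.finite_coker
  have : CompleteSpace T.range := hT.closed_range.completeSpace_coe
  have : CompleteSpace T.ker := FiniteDimensional.complete ℂ _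
  have hfc : FiniteDimensional ℂ T.rangeᗮ :=
    (Submodule.quotientEquivOfIsCompl _ _ (T.range.isCompl_orthogonal)).finiteDimensional
  -- `T` restricted to the orthogonal complement of its kernel
  let T₁ : T.kerᗮ →L[ℂ] T.range := (T.comp T.kerᗮ.subtypeL).codRestrict T.range (fun x => ⟨x, rfl⟩)
  have hT₁i : T₁.ker = ⊥ := by
    rw [LinearMap.ker_eq_bot']
    intro x hx
    have h1 : (x : H) ∈ T.ker := congrArg Subtype.val hx
    have h2 := Submodule.inner_right_of_mem_orthogonal h1 x.2
    exact Subtype.ext (inner_self_eq_zero.1 h2)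
  have hT₁s : T₁.range = ⊤ := by
    rw [LinearMap.range_eq_top]
    rintro ⟨_, x, rfl⟩
    refine ⟨⟨x - T.ker.starProjection x, T.ker.sub_starProjection_mem_orthogonal x⟩, ?_⟩
    apply Subtype.ext
    show T (x - T.ker.starProjection x) = T x
    have h1 : T (T.ker.starProjection x) = 0 := T.ker.starProjection_apply_mem x
    rw [map_sub, h1, sub_zero]
  let e := ContinuousLinearEquiv.ofBijective T₁ hT₁i hT₁s
  have he : ∀ x, T (e.symm x : H) = (x : H) := by
    intro x
    have : T₁ (e.symm x) = x := e.apply_symm_apply x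
    exact congrArg Subtype.val this
  have he' : ∀ x : T.kerᗮ, (e.symm ⟨T x, ⟨x, rfl⟩⟩ : H) = x := by
    intro x
    have : e.symm (T₁ x) = x := e.symm_apply_apply x
    exact congrArg Subtype.val this
  refine ⟨T.kerᗮ.subtypeL.comp ((e.symm : T.range →L[ℂ] T.kerᗮ).comp
    T.range.orthogonalProjectionOnto), -T.ker.starProjection, -T.rangeᗮ.starProjection,
    ?_, ?_, ?_, ?_⟩
  · exact (compact_of_finite_range T.ker T.ker.orthogonalProjectionOnto).neg
  · exact (compact_of_finite_range T.rangeᗮ T.rangeᗮ.orthogonalProjectionOnto).neg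
  · intro x
    show (e.symm (T.range.orthogonalProjectionOnto (T x)) : H) = x + -T.ker.starProjection x
    have h1 : T.range.orthogonalProjectionOnto (T x) = ⟨T x, ⟨x, rfl⟩⟩ :=
      T.range.orthogonalProjectionOnto_mem_subspace_eq_self ⟨T x, ⟨x, rfl⟩⟩
    have h2 : T x = T (x - T.ker.starProjection x) := by
      have h1 : T (T.ker.starProjection x) = 0 := T.ker.starProjection_apply_mem x
      rw [map_sub, h1, sub_zero]
    rw [h1]
    have h3 := he' ⟨x - T.ker.starProjection x, T.ker.sub_starProjection_mem_orthogonal x⟩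
    have h4 : (⟨T x, ⟨x, rfl⟩⟩ : T.range) = ⟨T (x - T.ker.starProjection x), ⟨_, rfl⟩⟩ :=
      Subtype.ext h2
    rw [h4, h3]
    show x - T.ker.starProjection x = _
    abel
  · intro x
    show T (e.symm (T.range.orthogonalProjectionOnto x) : H) = x + -T.rangeᗮ.starProjection x
    rw [he]
    have := T.range.starProjection_add_starProjection_orthogonal x
    have h2 : (T.range.orthogonalProjectionOnto x : H) = T.range.starProjection x := rfl
    rw [h2]
    nth_rw 2 [← this]
    abel

/-- The finite rank operator attached to a linear map from the kernel to the orthogonal complement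
of the range. -/
noncomputable def glue (T : H →L[ℂ] H) [FiniteDimensional ℂ T.ker] (φ : T.ker →ₗ[ℂ] T.rangeᗮ) :
    H →L[ℂ] H :=
  T.rangeᗮ.subtypeL.comp ((LinearMap.toContinuousLinearMap φ).comp T.ker.orthogonalProjectionOnto)

theorem glue_compact (T : H →L[ℂ] H) [FiniteDimensional ℂ T.ker] [FiniteDimensional ℂ T.rangeᗮ]
    (φ : T.ker →ₗ[ℂ] T.rangeᗮ) : IsCompactOperator (glue T φ) :=
  compact_of_finite_range _ _

theorem glue_apply (T : H →L[ℂ] H) [FiniteDimensional ℂ T.ker] (φ : T.ker →ₗ[ℂ] T.rangeᗮ) (x : H) :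
    glue T φ x = (φ (T.ker.orthogonalProjectionOnto x) : H) := rfl

theorem glue_eq_zero (T : H →L[ℂ] H) [FiniteDimensional ℂ T.ker] (φ : T.ker →ₗ[ℂ] T.rangeᗮ)
    (x : H) (hx : (T + glue T φ) x = 0) :
    ∃ h : x ∈ T.ker, φ ⟨x, h⟩ = 0 := by
  have h1 : T x + (φ (T.ker.orthogonalProjectionOnto x) : H) = 0 := hx
  have h2 : inner ℂ (T x) (φ (T.ker.orthogonalProjectionOnto x) : H) = 0 :=
    Submodule.inner_right_of_mem_orthogonal (⟨x, rfl⟩ : T x ∈ T.range) (φ _).2
  have h3 : T x = -(φ (T.ker.orthogonalProjectionOnto x) : H) := eq_neg_of_add_eq_zero_left h1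
  have h4 : (φ (T.ker.orthogonalProjectionOnto x) : H) = 0 := by
    rw [h3, inner_neg_left, neg_eq_zero] at h2
    exact inner_self_eq_zero.1 h2
  have h5 : x ∈ T.ker := by
    show T x = 0
    rw [h3, h4, neg_zero]
  refine ⟨h5, ?_⟩
  have h6 : T.ker.orthogonalProjectionOnto x = ⟨x, h5⟩ :=
    T.ker.orthogonalProjectionOnto_mem_subspace_eq_self ⟨x, h5⟩
  rw [h6] at h4
  exact Subtype.ext h4

theorem glue_surjective (T : H →L[ℂ] H) [FiniteDimensional ℂ T.ker] [CompleteSpace T.range]
    (φ : T.ker →ₗ[ℂ] T.rangeᗮ) (hφ : Function.Surjective φ) :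
    Function.Surjective (T + glue T φ) := by
  intro h
  obtain ⟨x, hx⟩ : T.range.starProjection h ∈ T.range := T.range.starProjection_apply_mem h
  obtain ⟨v, hv⟩ := hφ (T.rangeᗮ.orthogonalProjectionOnto h)
  refine ⟨x - T.ker.starProjection x + v, ?_⟩
  show T (x - T.ker.starProjection x + v) +
    (φ (T.ker.orthogonalProjectionOnto (x - T.ker.starProjection x + v)) : H) = h
  have h1 : T (T.ker.starProjection x) = 0 := T.ker.starProjection_apply_mem x
  have h2 : T (v : H) = 0 := v.2
  have h3 : T.ker.orthogonalProjectionOnto (x - T.ker.starProjection x) = 0 :=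
    Submodule.orthogonalProjectionOnto_eq_zero_iff.2 (T.ker.sub_starProjection_mem_orthogonal x)
  have h4 : T.ker.orthogonalProjectionOnto (v : H) = v :=
    T.ker.orthogonalProjectionOnto_mem_subspace_eq_self v
  rw [map_add, map_sub, h1, h2, map_add, h3, h4, zero_add, hv, sub_zero, add_zero]
  have h5 : T x = T.range.starProjection h := hx
  rw [h5]
  exact T.range.starProjection_add_starProjection_orthogonal h

theorem glue_range (T : H →L[ℂ] H) [FiniteDimensional ℂ T.ker] [CompleteSpace T.range]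
    (φ : T.ker →ₗ[ℂ] T.rangeᗮ) (hs : Function.Surjective (T + glue T φ)) :
    Function.Surjective φ := by
  intro s
  obtain ⟨x, hx⟩ := hs (s : H)
  have hx' : T x + (φ (T.ker.orthogonalProjectionOnto x) : H) = s := hx
  refine ⟨T.ker.orthogonalProjectionOnto x, ?_⟩
  have h1 : T x = ((s - φ (T.ker.orthogonalProjectionOnto x) : T.rangeᗮ) : H) := by
    rw [Submodule.coe_sub, ← hx']; abel
  have h2 : inner ℂ (T x) (T x) = 0 := by
    nth_rw 2 [h1]
    exact Submodule.inner_right_of_mem_orthogonal (⟨x, rfl⟩ : T x ∈ T.range) (Subtype.mem _)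
  have h3 : T x = 0 := inner_self_eq_zero.1 h2
  rw [h3, zero_add] at hx'
  exact Subtype.ext hx'

/-- The index of `G - K` is zero for `G` bijective, `K` compact. -/
theorem FredholmOp.finrank_eq {T G L : H →L[ℂ] H} (hT : FredholmOp T) (hG : Function.Bijective G)
    (hL : IsCompactOperator L) (hTG : T = G + L) :
    finrank ℂ T.ker = finrank ℂ (H ⧸ T.range) := by
  have := hT.finite_ker
  have := hT.finite_coker
  have : CompleteSpace T.range := hT.closed_range.completeSpace_coe
  let e := Submodule.quotientEquivOfIsCompl _ _ (T.range.isCompl_orthogonal)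
  have hfc : FiniteDimensional ℂ T.rangeᗮ := e.finiteDimensional
  have hfr : finrank ℂ (H ⧸ T.range) = finrank ℂ T.rangeᗮ := e.finrank_eq
  rw [hfr]
  have hadd : ∀ φ : T.ker →ₗ[ℂ] T.rangeᗮ, T + glue T φ = G + (L + glue T φ) := by
    intro φ
    nth_rw 1 [hTG]
    rw [add_assoc]
  rcases lt_trichotomy (finrank ℂ T.ker) (finrank ℂ T.rangeᗮ) with h | h | h
  · exfalso
    obtain ⟨φ, hφ⟩ := finrank_le_iff_exists_linearMap.1 h.le
    have hinj : ∀ x, (G + (L + glue T φ)) x = 0 → x = 0 := by
      intro x hx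
      rw [← hadd] at hx
      obtain ⟨h1, h2⟩ := glue_eq_zero T φ x hx
      have h3 := (map_eq_zero_iff φ hφ).1 h2
      exact congrArg Subtype.val h3
    have h1 := bijective_of_injective hG (hL.add (glue_compact T φ)) hinj
    have h2 : Function.Surjective (T + glue T φ) := by rw [hadd]; exact h1.2
    have h3 := glue_range T φ h2
    exact absurd (LinearMap.finrank_le_finrank_of_injective (f := φ) hφ) (by
      have := LinearMap.finrank_range_of_inj hφ
      rw [LinearMap.range_eq_top.2 h3, finrank_top] at this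
      omega)
  · exact h
  · exfalso
    obtain ⟨ψ, hψ⟩ := finrank_le_iff_exists_linearMap.1 h.le
    obtain ⟨φ, hφ⟩ := LinearMap.exists_leftInverse_of_injective ψ (LinearMap.ker_eq_bot.2 hψ)
    have hφs : Function.Surjective φ := fun s => ⟨ψ s, by
      have := LinearMap.congr_fun hφ s
      exact this⟩
    have h1 := glue_surjective T φ hφs
    rw [hadd] at h1
    have h2 := injective_of_surjective hG (hL.add (glue_compact T φ)) h1
    have hφi : Function.Injective φ := by
      rw [injective_iff_map_eq_zero]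
      intro v hv
      have h3 : (G + (L + glue T φ)) (v : H) = 0 := by
        rw [← hadd]
        show T (v : H) + (φ (T.ker.orthogonalProjectionOnto (v : H)) : H) = 0
        have h4 : T (v : H) = 0 := v.2
        have h5 : T.ker.orthogonalProjectionOnto (v : H) = v :=
          T.ker.orthogonalProjectionOnto_mem_subspace_eq_self v
        rw [h4, h5, hv]; simp
      have h6 : (v : H) = 0 := h2 (by rw [h3, map_zero])
      exact Subtype.ext h6
    exact absurd (LinearMap.finrank_le_finrank_of_injective (f := φ) hφi) (not_le.2 h)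

/-- For a Fredholm operator `T` of index zero the pair has the required perturbation. -/
theorem FredholmOp.exists_of_finrank_eq {T : H →L[ℂ] H} (hT : FredholmOp T)
    (h : finrank ℂ T.ker = finrank ℂ (H ⧸ T.range)) : HasInvertibleCompactPerturbation T := by
  have := hT.finite_ker
  have := hT.finite_coker
  have : CompleteSpace T.range := hT.closed_range.completeSpace_coe
  let e := Submodule.quotientEquivOfIsCompl _ _ (T.range.isCompl_orthogonal)
  have hfc : FiniteDimensional ℂ T.rangeᗮ := e.finiteDimensional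
  have hfr : finrank ℂ (H ⧸ T.range) = finrank ℂ T.rangeᗮ := e.finrank_eq
  rw [hfr] at h
  let φ : T.ker ≃ₗ[ℂ] T.rangeᗮ := LinearEquiv.ofFinrankEq _ _ h
  refine ⟨glue T φ, glue T φ, glue_compact T φ, glue_compact T φ, rfl, ?_, ?_, ?_⟩
  · intro x hx _
    obtain ⟨h1, h2⟩ := glue_eq_zero T φ x hx
    have h3 := (map_eq_zero_iff φ φ.injective).1 h2
    exact congrArg Subtype.val h3
  · intro x y hxy
    have hinj : Function.Injective (T + glue T φ) := by
      rw [injective_iff_map_eq_zero]
      intro x hx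
      obtain ⟨h1, h2⟩ := glue_eq_zero T φ x hx
      have h3 := (map_eq_zero_iff φ φ.injective).1 h2
      exact congrArg Subtype.val h3
    obtain ⟨z, hz⟩ := glue_surjective T φ φ.surjective x
    exact ⟨z, hz.symm, by rw [hinj hxy]; exact hz.symm⟩
  · intro w
    obtain ⟨y, hy⟩ := glue_surjective T φ φ.surjective w
    exact ⟨0, y, by rw [hy]; simp⟩

/-- The main point: existence of a commuting invertible compact perturbation forces index zero. -/
theorem FredholmOp.finrank_eq_of_exists {T : H →L[ℂ] H} (hT : FredholmOp T)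
    (h : HasInvertibleCompactPerturbation T) : finrank ℂ T.ker = finrank ℂ (H ⧸ T.range) := by
  obtain ⟨K₁, K₂, hK₁, hK₂, hcomm, hinj, -, hsurj⟩ := h
  obtain ⟨V, K', K'', hK', hK'', hVT, hTV⟩ := hT.exists_quasi_inverse
  set A : H →L[ℂ] H := T + K₁ with hA
  set B : H →L[ℂ] H := T + K₂ with hB
  set F : H →L[ℂ] H := K₂ - K₁ with hF
  have hBA : ∀ x, B x = A x + F x := by
    intro x
    show T x + K₂ x = T x + K₁ x + (K₂ x - K₁ x)
    abel
  have hFc : IsCompactOperator F := hK₂.sub hK₁
  have hAF : ∀ x, A (F x) = F (A x) := by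
    intro x
    have h1 : A (B x) = B (A x) := congrArg (fun S : H →L[ℂ] H => S x) hcomm
    rw [hBA, hBA, map_add] at h1
    exact add_left_cancel h1
  have hker : ∀ x, A x = 0 → F x = 0 → x = 0 := by
    intro x h1 h2
    exact hinj x h1 (by rw [hBA, h1, h2, add_zero])
  have hVA : ∀ x, V (A x) = x + (K' + V.comp K₁) x := by
    intro x
    show V (T x + K₁ x) = x + (K' x + V (K₁ x))
    rw [map_add, hVT]; abel
  have hVAc : IsCompactOperator (K' + V.comp K₁ : H →L[ℂ] H) := hK'.add (hK₁.clm_comp V)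
  have fin1 := generic_injective hFc hVAc hVA hAF hker
  -- the adjoint side
  have hAF' : ∀ x, adjoint A (adjoint F x) = adjoint F (adjoint A x) := by
    intro x
    have h1 : A.comp F = F.comp A := ContinuousLinearMap.ext hAF
    have h2 : adjoint (A.comp F) = adjoint (F.comp A) := by rw [h1]
    rw [adjoint_comp, adjoint_comp] at h2
    exact (congrArg (fun S : H →L[ℂ] H => S x) h2).symm
  have hker' : ∀ x, adjoint A x = 0 → adjoint F x = 0 → x = 0 := by
    intro x h1 h2
    obtain ⟨y, z, hyz⟩ := hsurj x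
    have h3 : inner ℂ x (A z) = 0 := by rw [← adjoint_inner_left, h1, inner_zero_left]
    have h4 : inner ℂ x (A y) = 0 := by rw [← adjoint_inner_left, h1, inner_zero_left]
    have h5 : inner ℂ x (F y) = 0 := by rw [← adjoint_inner_left, h2, inner_zero_left]
    have h6 : inner ℂ x x = 0 := by
      nth_rw 2 [← hyz]
      rw [hBA, inner_add_right, inner_neg_right, inner_add_right, h3, h4, h5]
      simp
    exact inner_self_eq_zero.1 h6
  have hVA' : ∀ x, adjoint V (adjoint A x) =
      x + (adjoint K'' + (adjoint V).comp (adjoint K₁)) x := by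
    intro x
    have h1 : T.comp V = ContinuousLinearMap.id ℂ H + K'' := ContinuousLinearMap.ext hTV
    have h2 : adjoint (T.comp V) = ContinuousLinearMap.id ℂ H + adjoint K'' := by
      rw [h1, map_add]
      congr 1
      exact adjoint_id
    rw [adjoint_comp] at h2
    have h3 : adjoint V (adjoint T x) = x + adjoint K'' x :=
      congrArg (fun S : H →L[ℂ] H => S x) h2
    have h4 : adjoint A x = adjoint T x + adjoint K₁ x := by
      rw [hA, map_add]; rfl
    rw [h4, map_add, h3]
    show _ = x + (adjoint K'' x + adjoint V (adjoint K₁ x))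
    abel
  have hVAc' : IsCompactOperator (adjoint K'' + (adjoint V).comp (adjoint K₁) : H →L[ℂ] H) :=
    (compact_adjoint hK'').add ((compact_adjoint hK₁).clm_comp (adjoint V))
  have fin2 := generic_injective (compact_adjoint hFc) hVAc' hVA' hAF' hker'
  obtain ⟨n, hn⟩ := (fin1.union fin2).infinite_compl.nonempty
  rw [Set.mem_compl_iff, Set.mem_union, not_or] at hn
  obtain ⟨hn1, hn2⟩ := hn
  set t : ℂ := 1 / ((n : ℂ) + 1) with ht
  have htc : (starRingEnd ℂ) t = t := by
    rw [ht]; simp
  have hGi : ∀ x, (A + t • F) x = 0 → x = 0 := by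
    intro x hx
    by_contra hne
    exact hn1 ⟨x, hne, eq_neg_of_add_eq_zero_left hx⟩
  have hGa : ∀ x, adjoint (A + t • F) x = 0 → x = 0 := by
    intro x hx
    by_contra hne
    have h1 : adjoint (A + t • F) = adjoint A + t • adjoint F := by
      rw [map_add, map_smulₛₗ, htc]
    rw [h1] at hx
    exact hn2 ⟨x, hne, eq_neg_of_add_eq_zero_left hx⟩
  have hVG : ∀ x, V ((A + t • F) x) = x + ((K' + V.comp K₁) + t • V.comp F : H →L[ℂ] H) x := by
    intro x
    show V (A x + t • F x) = x + ((K' + V.comp K₁) x + t • V (F x))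
    rw [map_add, map_smul, hVA]; abel
  have hVGc : IsCompactOperator ((K' + V.comp K₁) + t • V.comp F : H →L[ℂ] H) :=
    hVAc.add ((hFc.clm_comp V).smul t)
  have hGb := bijective_of_adjoint hVGc hVG hGi hGa
  have hL : IsCompactOperator (-(K₁ + t • F) : H →L[ℂ] H) := (hK₁.add (hFc.smul t)).neg
  refine hT.finrank_eq hGb hL ?_
  rw [hA]; abel

end Main

section Shift

/-- The Hilbert space `ℓ²(ℕ)`. -/
abbrev ell2 : Type := lp (fun _ : ℕ => ℂ) 2

/-- The underlying sequence of the forward shift. -/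
def shiftFun (x : ℕ → ℂ) : ℕ → ℂ
  | 0 => 0
  | n + 1 => x n

theorem memℓp_shift (x : ell2) : Memℓp (shiftFun x) 2 := by
  have h := lp.memℓp x
  rw [memℓp_gen_iff (by norm_num)] at h ⊢
  rw [← summable_nat_add_iff 1]
  exact h

/-- The forward shift as a linear map. -/
def shiftLin : ell2 →ₗ[ℂ] ell2 where
  toFun x := ⟨shiftFun x, memℓp_shift x⟩
  map_add' x y := by
    apply Subtype.ext
    funext n
    cases n with
    | zero => show (0 : ℂ) = 0 + 0; simp
    | succ n => rfl
  map_smul' c x := by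
    apply Subtype.ext
    funext n
    cases n with
    | zero => show (0 : ℂ) = c * 0; simp
    | succ n => rfl

theorem shiftLin_norm (x : ell2) : ‖shiftLin x‖ = ‖x‖ := by
  have h1 := lp.norm_rpow_eq_tsum (p := 2) (by norm_num) (shiftLin x)
  have h2 := lp.norm_rpow_eq_tsum (p := 2) (by norm_num) x
  have h3 : ∑' i, ‖(shiftLin x) i‖ ^ (2 : ENNReal).toReal = ∑' i, ‖x i‖ ^ (2 : ENNReal).toReal := by
    have hs : Summable fun i => ‖(shiftLin x) i‖ ^ (2 : ENNReal).toReal := by
      have := lp.memℓp (shiftLin x)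
      rwa [memℓp_gen_iff (by norm_num)] at this
    rw [hs.tsum_eq_zero_add]
    have h0 : ‖(shiftLin x) 0‖ ^ (2 : ENNReal).toReal = 0 := by
      show ‖(0 : ℂ)‖ ^ (2 : ENNReal).toReal = 0
      simp
    rw [h0, zero_add]
    rfl
  rw [h3, ← h2] at h1
  have h4 : ‖shiftLin x‖ ^ 2 = ‖x‖ ^ 2 := by
    have : (2 : ENNReal).toReal = ((2 : ℕ) : ℝ) := by simp
    rw [this, Real.rpow_natCast, Real.rpow_natCast] at h1
    exact h1
  exact (pow_left_inj₀ (norm_nonneg _) (norm_nonneg _) two_ne_zero).1 h4

/-- The forward shift on `ℓ²(ℕ)`. -/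
noncomputable def shift : ell2 →L[ℂ] ell2 :=
  shiftLin.mkContinuous 1 (fun x => by rw [shiftLin_norm, one_mul])

theorem shift_inj (x : ell2) (h : shift x = 0) : x = 0 := by
  have h1 : ‖shift x‖ = ‖x‖ := shiftLin_norm x
  rw [h, norm_zero] at h1
  exact norm_eq_zero.1 h1.symm

/-- Evaluation at `0`. -/
noncomputable def ev0 : ell2 →L[ℂ] ℂ := lp.evalCLM ℂ (fun _ : ℕ => ℂ) 2 0

theorem ev0_apply (x : ell2) : ev0 x = x 0 := rfl

theorem range_shift : shift.range = ev0.ker := by
  ext y
  constructor
  · rintro ⟨x, rfl⟩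
    rfl
  · intro hy
    have hy0 : y 0 = 0 := hy
    have hmem : Memℓp (fun n => y (n + 1)) 2 := by
      have h := lp.memℓp y
      rw [memℓp_gen_iff (by norm_num)] at h ⊢
      exact (summable_nat_add_iff (f := fun i => ‖y i‖ ^ (2 : ENNReal).toReal) 1).2 h
    refine ⟨⟨fun n => y (n + 1), hmem⟩, ?_⟩
    apply Subtype.ext
    funext n
    cases n with
    | zero => exact hy0.symm
    | succ n => rfl

theorem ev0_surj : ev0.range = ⊤ := by
  rw [LinearMap.range_eq_top]
  intro c
  refine ⟨lp.single 2 0 c, ?_⟩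
  show (lp.single 2 0 c : ell2) 0 = c
  simp

theorem shift_fredholm : FredholmOp shift := by
  refine ⟨?_, ?_, ?_⟩
  · rw [range_shift]
    exact ev0.isClosed_ker
  · have : shift.ker = ⊥ := by
      rw [LinearMap.ker_eq_bot']
      exact shift_inj
    rw [this]
    infer_instance
  · rw [range_shift]
    exact ((ev0 : ell2 →ₗ[ℂ] ℂ).quotKerEquivRange).symm.finiteDimensional

theorem shift_index : finrank ℂ shift.ker = 0 ∧ finrank ℂ (ell2 ⧸ shift.range) = 1 := by
  constructor
  · have : shift.ker = ⊥ := by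
      rw [LinearMap.ker_eq_bot']
      exact shift_inj
    rw [this, finrank_bot]
  · rw [range_shift]
    rw [((ev0 : ell2 →ₗ[ℂ] ℂ).quotKerEquivRange).finrank_eq, ev0_surj, finrank_top]
    exact finrank_self ℂ

end Shift

/-- **Answer to Q1.** For a Fredholm operator `T` on a complex Hilbert space there are compact
operators `K₁, K₂` such that `T + K₁` and `T + K₂` commute and form a Taylor invertible pair if
and only if the index of `T` is zero.  In particular the answer to the question is negative: the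
forward shift on `ℓ²(ℕ)` is a Fredholm operator for which no such `K₁, K₂` exist. -/
theorem result :
    (∀ (H : Type u) [NormedAddCommGroup H] [InnerProductSpace ℂ H] [CompleteSpace H]
      (T : H →L[ℂ] H), FredholmOp T →
        (HasInvertibleCompactPerturbation T ↔
          finrank ℂ T.ker = finrank ℂ (H ⧸ T.range))) ∧
    (∃ T : ell2 →L[ℂ] ell2, FredholmOp T ∧ ¬ HasInvertibleCompactPerturbation T) := by
  refine ⟨fun H _ _ _ T hT => ⟨hT.finrank_eq_of_exists, hT.exists_of_finrank_eq⟩,
    shift, shift_fredholm, fun h => ?_⟩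
  have h1 := shift_fredholm.finrank_eq_of_exists h
  rw [shift_index.1, shift_index.2] at h1
  exact absurd h1 (by norm_num)

end Pool.Agent.Results.MP_b56e9d_an.IndexZero
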